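import Pool.Graph.R_seed8.Y666.SF.Lex
import Pool.Graph.R_seed8.Y666.SF.Bridge

/-!
# Closure properties of the end-finite posets

Subposets, duals, finite unions, and lexicographic sums along end-finite index posets.
-/

set_option autoImplicit false

namespace Pool.Agent.H81.SPN

open Pool.Agent.Y666.SF
open OrderDual

/-- The filter generated by the image of a filter. -/
def gen {P Q : Type} [PartialOrder P] [PartialOrder Q] (f : Q ↪o P) (F : Flt Q) : Flt P where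
  carrier := {p | ∃ q ∈ F.carrier, f q ≤ p}
  nonempty := by
    obtain ⟨q, hq⟩ := F.nonempty
    exact ⟨f q, q, hq, le_rfl⟩
  up := by
    rintro x ⟨q, hq, hx⟩ y hxy
    exact ⟨q, hq, hx.trans hxy⟩
  dir := by
    rintro x ⟨q, hq, hx⟩ y ⟨r, hr, hy⟩
    obtain ⟨z, hz, h1, h2⟩ := F.dir q hq r hr
    exact ⟨f z, ⟨z, hz, le_rfl⟩, (f.le_iff_le.2 h1).trans hx, (f.le_iff_le.2 h2).trans hy⟩

theorem mem_gen {P Q : Type} [PartialOrder P] [PartialOrder Q] (f : Q ↪o P) (F : Flt Q) (x : Q) :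
    f x ∈ (gen f F).carrier ↔ x ∈ F.carrier := by
  constructor
  · rintro ⟨q, hq, h⟩
    exact F.up q hq x (f.le_iff_le.1 h)
  · intro h
    exact ⟨x, h, le_rfl⟩

/-- Subposets. -/
theorem ff_emb {P Q : Type} [PartialOrder P] [PartialOrder Q] (f : Q ↪o P) (h : FF P) : FF Q := by
  intro s hs
  have hinj : Function.Injective (gen f) := by
    intro F G hFG
    apply Flt.ext'
    ext x
    rw [← mem_gen f F, hFG, mem_gen]
  have hfin : (gen f '' s).Finite := by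
    apply h
    rintro _ ⟨F, hF, rfl⟩ _ ⟨G, hG, rfl⟩ ⟨p, ⟨q, hq, hqp⟩, hlt⟩
    apply hs F hF G hG
    refine ⟨q, hq, fun r hr => ?_⟩
    have := hlt (f r) ((mem_gen f G r).2 hr)
    exact f.lt_iff_lt.1 (lt_of_le_of_lt hqp this)
  exact hfin.of_finite_image hinj.injOn

theorem tm_emb {P Q : Type} [PartialOrder P] [PartialOrder Q] (f : Q ↪o P) (h : Tm P) : Tm Q :=
  ⟨ff_emb f h.1, ff_emb (OrderEmbedding.dual f) h.2⟩

/-- A family of pairwise non-separated filters that are all generated in one subposet with the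
finiteness property is finite. -/
theorem finite_of_coinit {P Q : Type} [PartialOrder P] [PartialOrder Q] (f : Q ↪o P) (hQ : FF Q)
    (s : Set (Flt P)) (hs : ∀ a ∈ s, ∀ b ∈ s, ¬ Sep a b)
    (hc : ∀ F ∈ s, ∀ p ∈ F.carrier, ∃ q, f q ∈ F.carrier ∧ f q ≤ p) : s.Finite := by
  let T : Set (Flt Q) := {F' | ∃ F ∈ s, ∀ x, x ∈ F'.carrier ↔ f x ∈ F.carrier}
  have hT : T.Finite := by
    apply hQ
    rintro F' ⟨F, hF, hFF⟩ G' ⟨G, hG, hGG⟩ ⟨p, hp, hlt⟩
    apply hs F hF G hG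
    refine ⟨f p, (hFF p).1 hp, fun g hg => ?_⟩
    obtain ⟨q, hq, hqg⟩ := hc G hG g hg
    exact lt_of_lt_of_le (f.lt_iff_lt.2 (hlt q ((hGG q).2 hq))) hqg
  refine (hT.image (gen f)).subset ?_
  intro F hF
  obtain ⟨p0, hp0⟩ := F.nonempty
  let F' : Flt Q :=
    { carrier := {x | f x ∈ F.carrier}
      nonempty := by
        obtain ⟨q, hq, -⟩ := hc F hF p0 hp0
        exact ⟨q, hq⟩
      up := fun x hx y hxy => F.up _ hx _ (f.le_iff_le.2 hxy)
      dir := by
        intro x hx y hy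
        obtain ⟨z, hz, h1, h2⟩ := F.dir _ hx _ hy
        obtain ⟨q, hq, hqz⟩ := hc F hF z hz
        exact ⟨q, hq, f.le_iff_le.1 (hqz.trans h1), f.le_iff_le.1 (hqz.trans h2)⟩ }
  refine ⟨F', ⟨F, hF, fun x => Iff.rfl⟩, ?_⟩
  apply Flt.ext'
  ext p
  constructor
  · rintro ⟨q, hq, hqp⟩
    exact F.up _ hq _ hqp
  · intro hp
    obtain ⟨q, hq, hqp⟩ := hc F hF p hp
    exact ⟨q, hq, hqp⟩

/-- Finite unions. -/
theorem ff_union {P ι : Type} [PartialOrder P] [Finite ι] (s : ι → Set P)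
    (hU : ∀ p, ∃ i, p ∈ s i) (h : ∀ i, FF (s i)) : FF P := by
  classical
  intro S hS
  have : Fintype ι := Fintype.ofFinite ι
  have hcov : S ⊆ ⋃ i, {F ∈ S | ∀ p ∈ F.carrier, ∃ q, q ∈ s i ∧ q ∈ F.carrier ∧ q ≤ p} := by
    intro F hF
    rw [Set.mem_iUnion]
    by_contra hcon
    push Not at hcon
    have h1 : ∀ i, ∃ p ∈ F.carrier, ∀ q, q ∈ s i → q ∈ F.carrier → ¬ q ≤ p := by
      intro i
      by_contra h2
      push Not at h2
      exact hcon i ⟨hF, fun p hp => by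
        obtain ⟨q, a, b, c⟩ := h2 p hp
        exact ⟨q, a, b, c⟩⟩
    choose p hp hpn using h1
    -- a common lower bound
    have hlow : ∀ t : Finset ι, ∃ z ∈ F.carrier, ∀ i ∈ t, z ≤ p i := by
      intro t
      induction t using Finset.induction_on with
      | empty =>
        obtain ⟨z, hz⟩ := F.nonempty
        exact ⟨z, hz, by simp⟩
      | insert a t ha ih =>
        obtain ⟨z, hz, hzt⟩ := ih
        obtain ⟨w, hw, hwz, hwp⟩ := F.dir z hz (p a) (hp a)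
        refine ⟨w, hw, fun i hi => ?_⟩
        rcases Finset.mem_insert.1 hi with rfl | hi
        · exact hwp
        · exact hwz.trans (hzt i hi)
    obtain ⟨z, hz, hzp⟩ := hlow Finset.univ
    obtain ⟨i, hi⟩ := hU z
    exact hpn i z hi hz (hzp i (Finset.mem_univ i))
  refine (Set.finite_iUnion fun i => ?_).subset hcov
  apply finite_of_coinit (OrderEmbedding.subtype (s i)) (h i)
  · intro a ha b hb
    exact hS a ha.1 b hb.1
  · intro F hF p hp
    obtain ⟨q, h1, h2, h3⟩ := hF.2 p hp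
    exact ⟨⟨q, h1⟩, h2, h3⟩

/-- the dual of a subset is the subset of the dual -/
def dualSub {P : Type} [PartialOrder P] (s : Set P) :
    (ofDual ⁻¹' s : Set Pᵒᵈ) ↪o (s : Set P)ᵒᵈ where
  toFun x := toDual ⟨ofDual x.1, x.2⟩
  inj' := by
    rintro ⟨x, hx⟩ ⟨y, hy⟩ h
    have h1 : (⟨ofDual x, hx⟩ : s) = ⟨ofDual y, hy⟩ := h
    have h2 : ofDual x = ofDual y := congrArg Subtype.val h1
    exact Subtype.ext h2
  map_rel_iff' := Iff.rfl

theorem tm_union {P ι : Type} [PartialOrder P] [Finite ι] (s : ι → Set P)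
    (hU : ∀ p, ∃ i, p ∈ s i) (h : ∀ i, Tm (s i)) : Tm P := by
  refine ⟨ff_union s hU fun i => (h i).1, ?_⟩
  refine ff_union (P := Pᵒᵈ) (fun i => ofDual ⁻¹' (s i)) (fun p => hU (ofDual p)) fun i => ?_
  exact ff_emb (dualSub (s i)) (h i).2

section Lex

variable {I : Type} [PartialOrder I] {P : I → Type} [∀ i, PartialOrder (P i)]

theorem lex_le_same' {i : I} {x y : P i} :
    (toLex ⟨i, x⟩ : Σₗ i, P i) ≤ toLex ⟨i, y⟩ ↔ x ≤ y := by
  rw [Sigma.Lex.le_def]
  constructor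
  · rintro (h | ⟨h, h'⟩)
    · exact absurd h (lt_irrefl i)
    · exact h'
  · intro h
    exact Or.inr ⟨rfl, h⟩

theorem lex_lt' {i j : I} (h : i < j) (x : P i) (y : P j) :
    (toLex ⟨i, x⟩ : Σₗ i, P i) < toLex ⟨j, y⟩ := by
  rw [Sigma.Lex.lt_def]
  exact Or.inl h

theorem fst_le' {i j : I} {x : P i} {y : P j}
    (h : (toLex ⟨i, x⟩ : Σₗ i, P i) ≤ toLex ⟨j, y⟩) : i ≤ j := by
  rw [Sigma.Lex.le_def] at h
  rcases h with h | ⟨h, -⟩
  · exact le_of_lt h
  · exact le_of_eq h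

/-- a summand -/
def inSum (P : I → Type) [∀ i, PartialOrder (P i)] (i : I) : P i ↪o (Σₗ i, P i) where
  toFun x := toLex ⟨i, x⟩
  inj' := by
    intro x y h
    have h1 : (⟨i, x⟩ : Σ i, P i) = ⟨i, y⟩ := h
    simpa using h1
  map_rel_iff' := lex_le_same'

/-- the projection of a filter of the sum -/
def proj (F : Flt (Σₗ i, P i)) : Flt I where
  carrier := {i | ∃ k, ∃ x : P k, (toLex ⟨k, x⟩ : Σₗ i, P i) ∈ F.carrier ∧ k ≤ i}
  nonempty := by
    obtain ⟨⟨k, x⟩, hx⟩ := F.nonempty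
    exact ⟨k, k, x, hx, le_rfl⟩
  up := by
    rintro i ⟨k, x, hx, hk⟩ j hij
    exact ⟨k, x, hx, hk.trans hij⟩
  dir := by
    rintro i ⟨k, x, hx, hk⟩ j ⟨l, y, hy, hl⟩
    obtain ⟨⟨m, z⟩, hz, h1, h2⟩ := F.dir _ hx _ hy
    exact ⟨m, ⟨m, z, hz, le_rfl⟩, (fst_le' h1).trans hk, (fst_le' h2).trans hl⟩

theorem ff_lex' (hI : FF I) (h : ∀ i, FF (P i)) : FF (Σₗ i, P i) := by
  classical
  intro s hs
  have himg : (proj '' s).Finite := by
    apply hI
    rintro _ ⟨F, hF, rfl⟩ _ ⟨G, hG, rfl⟩ ⟨p, ⟨k, x, hx, hk⟩, hlt⟩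
    apply hs F hF G hG
    refine ⟨_, hx, ?_⟩
    rintro ⟨j, y⟩ hy
    exact lex_lt' (lt_of_le_of_lt hk (hlt j ⟨j, y, hy, le_rfl⟩)) x y
  refine Set.Finite.of_finite_fibers proj himg ?_
  rintro J ⟨F0, hF0, rfl⟩
  by_cases hmin : ∃ i0 ∈ (proj F0).carrier, ∀ j ∈ (proj F0).carrier, i0 ≤ j
  · obtain ⟨i0, hi0, hle⟩ := hmin
    apply finite_of_coinit (inSum P i0) (h i0)
    · intro a ha b hb
      exact hs a ha.1 b hb.1
    · rintro F ⟨hF, hFp⟩ ⟨j, y⟩ hy
      have hFp' : proj F = proj F0 := hFp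
      have h1 : i0 ∈ (proj F).carrier := by rw [hFp']; exact hi0
      obtain ⟨k, x, hx, hk⟩ := h1
      obtain ⟨⟨m, z⟩, hz, h2, h3⟩ := F.dir _ hx _ hy
      have hm : m ∈ (proj F).carrier := ⟨m, z, hz, le_rfl⟩
      rw [hFp'] at hm
      have hmi : m = i0 := le_antisymm ((fst_le' h2).trans hk) (hle m hm)
      subst hmi
      exact ⟨z, hz, h3⟩
  · have hmin' : ∀ i ∈ (proj F0).carrier, ∃ j ∈ (proj F0).carrier, j < i := by
      intro i hi
      by_contra hcon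
      push Not at hcon
      apply hmin
      refine ⟨i, hi, fun j hj => ?_⟩
      obtain ⟨k, hk, hki, hkj⟩ := (proj F0).dir i hi j hj
      rcases hki.lt_or_eq with hlt | rfl
      · exact absurd hlt (hcon k hk)
      · exact hkj
    have hsub : ∀ F G : Flt (Σₗ i, P i), proj F = proj F0 → proj G = proj F0 →
        F.carrier ⊆ G.carrier := by
      rintro F G hF hG ⟨j, y⟩ hy
      have hj : j ∈ (proj F).carrier := ⟨j, y, hy, le_rfl⟩
      rw [hF] at hj
      obtain ⟨k, hk, hkj⟩ := hmin' j hj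
      rw [← hG] at hk
      obtain ⟨l, x, hx, hl⟩ := hk
      exact G.up _ hx _ (lex_lt' (lt_of_le_of_lt hl hkj) x y).le
    have : (s ∩ proj ⁻¹' {proj F0}).Subsingleton := fun F hF G hG =>
      Flt.ext' (Set.Subset.antisymm (hsub F G hF.2 hG.2) (hsub G F hG.2 hF.2))
    exact this.finite

end Lex

/-- The dual of a lexicographic sum. -/
def lexDual' {I : Type} [PartialOrder I] (P : I → Type) [∀ i, PartialOrder (P i)] :
    (Σₗ i, P i)ᵒᵈ ↪o (Σₗ i : Iᵒᵈ, (P (ofDual i))ᵒᵈ) where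
  toFun a := toLex ⟨toDual (ofLex (ofDual a)).1, toDual (ofLex (ofDual a)).2⟩
  inj' := fun a b h => h
  map_rel_iff' := by
    rintro ⟨i, x⟩ ⟨j, y⟩
    constructor
    · intro h
      replace h : (toLex ⟨toDual i, toDual x⟩ : Σₗ i : Iᵒᵈ, (P (ofDual i))ᵒᵈ) ≤
        toLex ⟨toDual j, toDual y⟩ := h
      rw [Sigma.Lex.le_def] at h
      show (toLex ⟨j, y⟩ : Σₗ i, P i) ≤ toLex ⟨i, x⟩
      rw [Sigma.Lex.le_def]
      rcases h with h' | ⟨h1, h2⟩
      · exact Or.inl h'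
      · have h3 : i = j := h1
        subst h3
        exact Or.inr ⟨rfl, h2⟩
    · intro h
      have h' : (toLex ⟨j, y⟩ : Σₗ i, P i) ≤ toLex ⟨i, x⟩ := h
      rw [Sigma.Lex.le_def] at h'
      show (toLex ⟨toDual i, toDual x⟩ : Σₗ i : Iᵒᵈ, (P (ofDual i))ᵒᵈ) ≤
        toLex ⟨toDual j, toDual y⟩
      rw [Sigma.Lex.le_def]
      rcases h' with h' | ⟨h1, h2⟩
      · exact Or.inl h'
      · have h3 : j = i := h1
        subst h3
        exact Or.inr ⟨rfl, h2⟩

theorem tm_lex' {I : Type} [PartialOrder I] {P : I → Type} [∀ i, PartialOrder (P i)]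
    (hI : Tm I) (h : ∀ i, Tm (P i)) : Tm (Σₗ i, P i) := by
  refine ⟨ff_lex' hI.1 fun i => (h i).1, ?_⟩
  exact ff_emb (lexDual' P) (ff_lex' (I := Iᵒᵈ) (P := fun i => (P (ofDual i))ᵒᵈ) hI.2
    fun i => (h (ofDual i)).2)

theorem tm_dual {P : Type} [PartialOrder P] (h : Tm P) : Tm Pᵒᵈ := by
  refine ⟨h.2, ?_⟩
  exact ff_emb (⟨⟨fun a => ofDual (ofDual a), fun a b h => h⟩, Iff.rfl⟩ : Pᵒᵈᵒᵈ ↪o P) h.1

/-- no infinite antichain -/
theorem fac_of_ff {P : Type} [PartialOrder P] (h : FF P) (s : Set P)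
    (hs : IsAntichain (· ≤ ·) s) : s.Finite := by
  let φ : P → Flt P := fun p =>
    { carrier := {x | p ≤ x}
      nonempty := ⟨p, le_rfl⟩
      up := fun _ hx _ hxy => le_trans hx hxy
      dir := fun _ hx _ hy => ⟨p, le_rfl, hx, hy⟩ }
  have hinj : Function.Injective φ := by
    intro p q hpq
    have h1 : {x | p ≤ x} = {x | q ≤ x} := congrArg Flt.carrier hpq
    have h2 : q ∈ {x | p ≤ x} := by rw [h1]; exact le_refl q
    have h3 : p ∈ {x | q ≤ x} := by rw [← h1]; exact le_refl p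
    exact le_antisymm h2 h3
  have hfin : (φ '' s).Finite := by
    apply h
    rintro _ ⟨p, hp, rfl⟩ _ ⟨q, hq, rfl⟩ ⟨x, hx, hlt⟩
    have h1 : p ≤ x := hx
    have h2 : x < q := hlt q (le_refl q)
    have h3 : p < q := lt_of_le_of_lt h1 h2
    exact hs hp hq h3.ne h3.le
  exact hfin.of_finite_image hinj.injOn

/-- The principal filter. -/
def princ {P : Type} [PartialOrder P] (p : P) : Flt P where
  carrier := {x | p ≤ x}
  nonempty := ⟨p, le_rfl⟩
  up := fun _ hx _ hxy => le_trans hx hxy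
  dir := fun _ hx _ hy => ⟨p, le_rfl, hx, hy⟩

/-- Posets in which every element is incomparable with only finitely many elements. -/
theorem ff_of_incomp {P : Type} [PartialOrder P] (h : ∀ p : P, {x | ¬ x ≤ p ∧ ¬ p ≤ x}.Finite) :
    FF P := by
  classical
  intro s hs
  -- filters with a least element
  have hM : {F ∈ s | ∃ m ∈ F.carrier, ∀ x ∈ F.carrier, m ≤ x}.Finite := by
    let A : Set P := {m | ∃ F ∈ s, m ∈ F.carrier ∧ ∀ x ∈ F.carrier, m ≤ x}
    have hA : A.Finite := by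
      rcases A.eq_empty_or_nonempty with h0 | ⟨p, F, hF, hp, hpF⟩
      · rw [h0]; exact Set.finite_empty
      · refine ((h p).insert p).subset ?_
        rintro q ⟨G, hG, hq, hqG⟩
        by_cases hqp : q = p
        · exact Or.inl hqp
        · right
          constructor
          · intro hle
            exact hs G hG F hF ⟨q, hq, fun x hx => lt_of_lt_of_le (lt_of_le_of_ne hle hqp) (hpF x hx)⟩
          · intro hle
            exact hs F hF G hG ⟨p, hp, fun x hx =>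
              lt_of_lt_of_le (lt_of_le_of_ne hle (Ne.symm hqp)) (hqG x hx)⟩
    refine (hA.image princ).subset ?_
    rintro F ⟨hF, m, hm, hmF⟩
    refine ⟨m, ⟨F, hF, hm, hmF⟩, ?_⟩
    apply Flt.ext'
    ext x
    exact ⟨fun hx => F.up m hm x hx, fun hx => hmF x hx⟩
  -- filters without a least element
  have hN : {F ∈ s | ¬ ∃ m ∈ F.carrier, ∀ x ∈ F.carrier, m ≤ x}.Subsingleton := by
    have hsub : ∀ F ∈ s, ∀ G ∈ s, (¬ ∃ m ∈ G.carrier, ∀ x ∈ G.carrier, m ≤ x) →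
        F.carrier ⊆ G.carrier := by
      intro F hF G hG hmin p hp
      by_contra hpG
      have h1 : ∃ q ∈ G.carrier, ¬ p < q := by
        by_contra hcon
        push Not at hcon
        exact hs F hF G hG ⟨p, hp, hcon⟩
      obtain ⟨q, hq, hpq⟩ := h1
      have h2 : {x | x ∈ G.carrier ∧ x ≤ q}.Finite := by
        refine (h p).subset ?_
        rintro x ⟨hx, hxq⟩
        have h3 : ¬ x ≤ p := fun hle => hpG (G.up x hx p hle)
        refine ⟨h3, fun hle => ?_⟩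
        have hne : p ≠ x := by
          rintro rfl
          exact h3 le_rfl
        exact hpq (lt_of_lt_of_le (lt_of_le_of_ne hle hne) hxq)
      obtain ⟨m, hm⟩ := h2.exists_minimal ⟨q, hq, le_rfl⟩
      apply hmin
      refine ⟨m, hm.1.1, fun x hx => ?_⟩
      obtain ⟨z, hz, hzm, hzx⟩ := G.dir m hm.1.1 x hx
      have h4 : m ≤ z := hm.2 ⟨hz, hzm.trans hm.1.2⟩ hzm
      exact h4.trans hzx
    rintro F ⟨hF, hF'⟩ G ⟨hG, hG'⟩
    exact Flt.ext' (Set.Subset.antisymm (hsub F hF G hG hG') (hsub G hG F hF hF'))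
  refine (hM.union hN.finite).subset ?_
  intro F hF
  by_cases hmin : ∃ m ∈ F.carrier, ∀ x ∈ F.carrier, m ≤ x
  · exact Or.inl ⟨hF, hmin⟩
  · exact Or.inr ⟨hF, hmin⟩

theorem tm_of_incomp {P : Type} [PartialOrder P] (h : ∀ p : P, {x | ¬ x ≤ p ∧ ¬ p ≤ x}.Finite) :
    Tm P := by
  refine ⟨ff_of_incomp h, ff_of_incomp (P := Pᵒᵈ) fun p => ?_⟩
  refine (h (ofDual p)).subset ?_
  rintro x ⟨h1, h2⟩
  exact ⟨h2, h1⟩

end Pool.Agent.H81.SPN
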